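import Mathlib

namespace Pool.Agent.Results.MP_8119db_co.Order

open Finset

/-- the vertices outside the closed neighbourhood of `X` -/
def rest {n : ℕ} (G : SimpleGraph (Fin n)) (X : Finset (Fin n)) : Set (Fin n) :=
  {v | ∀ x ∈ X, v ≠ x ∧ ¬ G.Adj x v}

/-- weak-`k`-neighbour-connected -/
def WNC (k : ℕ) {n : ℕ} (G : SimpleGraph (Fin n)) : Prop :=
  ∀ X : Finset (Fin n), X.card ≤ k - 1 →
    (G.induce (rest G X)).Connected ∧ 2 ≤ (rest G X).ncard

variable {n : ℕ}

lemma closed {G : SimpleGraph (Fin n)} {S : Set (Fin n)} (h : (G.induce S).Connected)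
    (C : Set (Fin n)) {v : Fin n} (hv : v ∈ S) (hvC : v ∈ C)
    (hC : ∀ a ∈ C, ∀ b ∈ S, G.Adj a b → b ∈ C) : S ⊆ C := by
  intro u hu
  obtain ⟨p⟩ := h.preconnected ⟨v, hv⟩ ⟨u, hu⟩
  have : ∀ (a b : S) (_ : (G.induce S).Walk a b), a.1 ∈ C → b.1 ∈ C := by
    intro a b p
    induction p with
    | nil => exact id
    | cons h _ ih => exact fun ha => ih (hC _ ha _ (Subtype.prop _) h)
  exact this _ _ p hvC

open Classical in
lemma mindeg {k : ℕ} {G : SimpleGraph (Fin n)} (h : WNC k G) (hk : 1 ≤ k) (X : Finset (Fin n))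
    {v : Fin n} (hv : v ∈ rest G X) :
    k ≤ X.card + (univ.filter (fun w => w ∈ rest G X ∧ G.Adj v w)).card := by
  by_contra hlt
  set D := univ.filter (fun w => w ∈ rest G X ∧ G.Adj v w) with hD
  have hf : ∀ w, ∃ x, (x ≠ v ∧ ¬ G.Adj x v ∧ G.Adj x w) ∨
      (x = v ∧ ∀ y, G.Adj w y → y = v ∨ G.Adj v y) := by
    intro w
    by_cases e : ∀ y, G.Adj w y → y = v ∨ G.Adj v y
    · exact ⟨v, Or.inr ⟨rfl, e⟩⟩
    · push Not at e
      obtain ⟨y, h1, h2, h3⟩ := e
      exact ⟨y, Or.inl ⟨h2, fun h => h3 h.symm, h1.symm⟩⟩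
  choose f hf using hf
  have c1 : (X ∪ D.image f).card ≤ k - 1 := by
    have := card_union_le X (D.image f)
    have : (D.image f).card ≤ D.card := card_image_le
    omega
  have c2 : (X ∪ (D.image f).erase v).card ≤ k - 1 :=
    (card_le_card (union_subset_union_right (erase_subset _ _))).trans c1
  obtain ⟨h1, h2⟩ := h _ c2
  have hv' : v ∈ rest G (X ∪ (D.image f).erase v) := by
    intro x hx
    rcases mem_union.1 hx with hx | hx
    · exact hv x hx
    · obtain ⟨hne, hx⟩ := mem_erase.1 hx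
      obtain ⟨w, -, rfl⟩ := mem_image.1 hx
      rcases hf w with h3 | h3
      · exact ⟨h3.1.symm, h3.2.1⟩
      · exact absurd h3.1 hne
  have step : ∀ b ∈ rest G (X ∪ (D.image f).erase v), G.Adj v b → b ∈ D ∧ f b = v := by
    intro b hb hvb
    have hbD : b ∈ D := mem_filter.2 ⟨mem_univ _, fun x hx => hb x (mem_union_left _ hx), hvb⟩
    refine ⟨hbD, ?_⟩
    rcases hf b with h3 | h3
    · exact absurd h3.2.2
        (hb _ (mem_union_right _ (mem_erase.2 ⟨h3.1, mem_image_of_mem _ hbD⟩))).2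
    · exact h3.1
  have hsub := closed h1 {b | b = v ∨ (b ∈ D ∧ f b = v)} hv' (Or.inl rfl) (by
    rintro a (rfl | ⟨-, ha⟩) b hb hab
    · exact Or.inr (step b hb hab)
    · rcases hf a with h3 | h3
      · exact absurd ha h3.1
      · rcases h3.2 b hab with e | e
        · exact Or.inl e
        · exact Or.inr (step b hb e))
  obtain ⟨w, hw, hwv⟩ := Set.exists_ne_of_one_lt_ncard (lt_of_lt_of_le one_lt_two h2) v
  have hvin : v ∈ D.image f := by
    rcases hsub hw with e | e
    · exact absurd e hwv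
    · exact mem_image.2 ⟨w, e.1, e.2⟩
  have hemp : rest G (X ∪ D.image f) = ∅ := by
    rw [Set.eq_empty_iff_forall_notMem]
    intro u hu
    have hu' : u ∈ rest G (X ∪ (D.image f).erase v) := fun x hx =>
      hu x (union_subset_union_right (erase_subset _ _) hx)
    have h3 := hu v (mem_union_right _ hvin)
    rcases hsub hu' with e | e
    · exact h3.1 e
    · exact h3.2 (mem_filter.1 e.1).2.2
  have := (h _ c1).2
  rw [hemp] at this
  simp at this

lemma grow {k : ℕ} {G : SimpleGraph (Fin n)} (h : WNC k G) (hk : 1 ≤ k) (t : ℕ) (ht : t ≤ k - 1) :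
    ∃ X : Finset (Fin n), X.card ≤ t ∧ 2 * (rest G X).ncard + t * (2 * k + 3) ≤ 2 * n + t * t := by
  classical
  induction t with
  | zero =>
    refine ⟨∅, by simp, ?_⟩
    have := Set.ncard_le_card (rest G ∅)
    simp at this; omega
  | succ t ih =>
    obtain ⟨X, h1, h2⟩ := ih (by omega)
    obtain ⟨v, hv⟩ := Set.nonempty_of_ncard_ne_zero
      (by have := (h X (by omega)).2; omega : (rest G X).ncard ≠ 0)
    have h3 := mindeg h hk X hv
    set D := univ.filter (fun w => w ∈ rest G X ∧ G.Adj v w) with hD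
    have hvD : v ∉ D := fun hh => G.irrefl (mem_filter.1 hh).2.2
    have hdis : Disjoint (rest G (insert v X)) ((insert v D : Finset (Fin n)) : Set (Fin n)) := by
      rw [Set.disjoint_left]
      intro u hu hu'
      have h4 := hu v (mem_insert_self _ _)
      rcases mem_insert.1 (mem_coe.1 hu') with e | e
      · exact h4.1 e
      · exact h4.2 (mem_filter.1 e).2.2
    have hsub : rest G (insert v X) ∪ ((insert v D : Finset (Fin n)) : Set (Fin n)) ⊆ rest G X := by
      rintro u (hu | hu)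
      · exact fun x hx => hu x (mem_insert_of_mem hx)
      · rcases mem_insert.1 (mem_coe.1 hu) with e | e
        · exact e ▸ hv
        · exact (mem_filter.1 e).2.1
    have h5 := Set.ncard_le_ncard hsub
    rw [Set.ncard_union_eq hdis, Set.ncard_coe_finset, card_insert_of_notMem hvD] at h5
    refine ⟨insert v X, (card_insert_le _ _).trans (by omega), ?_⟩
    have h6 : k ≤ t + D.card := by omega
    nlinarith

theorem joined (k n : ℕ) (hk : 1 ≤ k) (G : SimpleGraph (Fin n)) (h : WNC k G) :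
    k ^ 2 + 3 * k ≤ 2 * n ∧ ∀ v, k ≤ (G.neighborSet v).ncard := by
  constructor
  · obtain ⟨X, h1, h2⟩ := grow h hk (k - 1) le_rfl
    have h3 := (h X h1).2
    obtain ⟨j, rfl⟩ : ∃ j, k = j + 1 := ⟨k - 1, by omega⟩
    simp only [Nat.add_sub_cancel] at h2
    nlinarith
  · intro v
    classical
    have := mindeg h hk ∅ (v := v) (by simp [rest])
    rw [card_empty, zero_add] at this
    refine this.trans ?_
    rw [← Set.ncard_coe_finset]
    refine Set.ncard_le_ncard (fun w hw => ?_)
    exact (mem_filter.1 (mem_coe.1 hw)).2.2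

theorem result (k n : ℕ) (hk : 1 ≤ k) (G : SimpleGraph (Fin n)) (h : WNC k G) :
    k ^ 2 + 3 * k ≤ 2 * n := (joined k n hk G h).1

end Pool.Agent.Results.MP_8119db_co.Order
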